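import Pool.Agent.Helper79.GS.St3

set_option autoImplicit false

namespace Pool.Agent.Helper33.GS

open Pool.Agent.Helper79.GS

open scoped Matrix

/-- The Schur complement identity in the form needed: no inverse occurs. -/
private theorem schur {S : Type*} [CommRing S] (N : ℕ) (B : Matrix (Fin (N + 1)) (Fin (N + 1)) S)
    (g : S) (v : Fin N → S)
    (h0 : ∀ i : Fin N, B i.succ 0 * g + ∑ k : Fin N, B i.succ k.succ * v k = 0) :
    (B.submatrix Fin.succ Fin.succ).det * (B 0 0 * g + ∑ k : Fin N, B 0 k.succ * v k) =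
      g * B.det := by
  classical
  let Lm : Matrix (Fin (N + 1)) (Fin (N + 1)) S :=
    Matrix.of (Fin.cons (Fin.cons g (fun _ => 0))
      (fun i => Fin.cons (v i) (fun j => (1 : Matrix (Fin N) (Fin N) S) i j)))
  have l00 : Lm 0 0 = g := rfl
  have l0s : ∀ j : Fin N, Lm 0 j.succ = 0 := fun j => rfl
  have ls0 : ∀ i : Fin N, Lm i.succ 0 = v i := fun i => rfl
  have lss : ∀ i j : Fin N, Lm i.succ j.succ = (1 : Matrix (Fin N) (Fin N) S) i j :=
    fun i j => rfl
  have hL : Lm.det = g := by
    rw [Matrix.det_succ_row_zero, Fin.sum_univ_succ]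
    have e1 : Lm.submatrix Fin.succ (Fin.succAbove 0) = 1 := by
      ext i j
      simp only [Matrix.submatrix_apply, Fin.zero_succAbove]
      exact lss i j
    rw [e1, Matrix.det_one, l00]
    have e2 : ∑ i : Fin N, (-1 : S) ^ ((i.succ : Fin (N + 1)) : ℕ) * Lm 0 i.succ *
        (Lm.submatrix Fin.succ (Fin.succAbove i.succ)).det = 0 := by
      apply Finset.sum_eq_zero
      intro i _
      rw [l0s]; ring
    rw [e2]; simp
  have m0 : ∀ i, (B * Lm) i 0 = B i 0 * g + ∑ k : Fin N, B i k.succ * v k := by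
    intro i
    rw [Matrix.mul_apply, Fin.sum_univ_succ, l00]
    simp only [ls0]
  have ms : ∀ i (j : Fin N), (B * Lm) i j.succ = B i j.succ := by
    intro i j
    rw [Matrix.mul_apply, Fin.sum_univ_succ, l0s]
    simp only [lss, Matrix.one_apply]
    simp
  have hP : (B * Lm).det = (B.submatrix Fin.succ Fin.succ).det *
      (B 0 0 * g + ∑ k : Fin N, B 0 k.succ * v k) := by
    rw [Matrix.det_succ_column_zero, Fin.sum_univ_succ, m0]
    have e1 : (B * Lm).submatrix (Fin.succAbove 0) Fin.succ = B.submatrix Fin.succ Fin.succ := by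
      ext i j
      simp only [Matrix.submatrix_apply, Fin.zero_succAbove]
      exact ms _ _
    rw [e1]
    have e2 : ∑ i : Fin N, (-1 : S) ^ ((i.succ : Fin (N + 1)) : ℕ) * (B * Lm) i.succ 0 *
        ((B * Lm).submatrix (Fin.succAbove i.succ) Fin.succ).det = 0 := by
      apply Finset.sum_eq_zero
      intro i _
      rw [m0, h0]; ring
    rw [e2]; simp; ring
  rw [← hP, Matrix.det_mul, hL]; ring

theorem hSCH : StSCH := by
  intro R _ a h N f v hv
  set B : Matrix (Fin (N + 1)) (Fin (N + 1)) (PowerSeries R) :=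
    (1 - (PowerSeries.X : PowerSeries R) •
      (Matrix.of (fun i j : Fin (N + 1) => PowerSeries.C (a (h + i) (h + j))))) with hB
  have b : ∀ i j, B i j = (1 : Matrix (Fin (N + 1)) (Fin (N + 1)) (PowerSeries R)) i j -
      PowerSeries.X * PowerSeries.C (a (h + i) (h + j)) := by
    intro i j
    rw [hB]
    simp [Matrix.sub_apply]
  have hs : ∀ i : Fin N, h + ((i.succ : Fin (N + 1)) : ℕ) = h + 1 + (i : ℕ) := by
    intro i; rw [Fin.val_succ]; omega
  have hz : h + ((0 : Fin (N + 1)) : ℕ) = h := by simp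
  have b00 : B 0 0 = 1 - PowerSeries.X * PowerSeries.C (a h h) := by
    rw [b, hz]; simp
  have b0s : ∀ k : Fin N, B 0 k.succ = - (PowerSeries.X * PowerSeries.C (a h (h + 1 + k))) := by
    intro k
    rw [b, hz, hs, Matrix.one_apply, if_neg (Fin.succ_ne_zero k).symm]; ring
  have bs0 : ∀ i : Fin N, B i.succ 0 = - (PowerSeries.X * PowerSeries.C (a (h + 1 + i) h)) := by
    intro k
    rw [b, hz, hs, Matrix.one_apply, if_neg (Fin.succ_ne_zero k)]; ring
  have bss : ∀ i j : Fin N, B i.succ j.succ =
      (1 - (PowerSeries.X : PowerSeries R) •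
        (Matrix.of (fun i j : Fin N => PowerSeries.C (a (h + 1 + i) (h + 1 + j))))) i j := by
    intro i j
    rw [b, hs, hs]
    simp [Matrix.sub_apply, Matrix.one_apply, Fin.succ_inj]
  have hsub : B.submatrix Fin.succ Fin.succ = (1 - (PowerSeries.X : PowerSeries R) •
        (Matrix.of (fun i j : Fin N => PowerSeries.C (a (h + 1 + i) (h + 1 + j))))) := by
    ext1 i j
    rw [Matrix.submatrix_apply]
    exact bss i j
  have key := schur N B (PowerSeries.X * f) v (by
    intro i
    rw [bs0]
    have e1 : ∑ k : Fin N, B i.succ k.succ * v k =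
        v i - PowerSeries.X * ∑ j : Fin N, PowerSeries.C (a (h + 1 + i) (h + 1 + j)) * v j := by
      have e2 : ∀ k : Fin N, B i.succ k.succ * v k =
          (if i = k then v k else 0) -
            PowerSeries.X * (PowerSeries.C (a (h + 1 + i) (h + 1 + k)) * v k) := by
        intro k
        rw [bss]
        simp only [Matrix.sub_apply, Matrix.smul_apply, Matrix.one_apply, Matrix.of_apply,
          smul_eq_mul]
        split_ifs <;> ring
      rw [Finset.sum_congr rfl (fun k _ => e2 k), Finset.sum_sub_distrib, ← Finset.mul_sum]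
      simp
    rw [e1]
    have := hv i
    linear_combination this)
  rw [hsub] at key
  rw [← key, b00]
  congr 1
  have e3 : ∑ k : Fin N, B 0 k.succ * v k =
      - (PowerSeries.X * ∑ j : Fin N, PowerSeries.C (a h (h + 1 + j)) * v j) := by
    rw [Finset.mul_sum, ← Finset.sum_neg_distrib]
    apply Finset.sum_congr rfl
    intro k _
    rw [b0s]; ring
  rw [e3]; ring

end Pool.Agent.Helper33.GS
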