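import Pool.Agent.Helper79.GS.St5

/-!
Project GS (MP_c2d095_lc), module WTN.
-/

set_option autoImplicit false

namespace Pool.Agent.Helper33.GS

open Pool.Agent.Helper79.GS
open Pool.Agent.Helper19.SK Pool.Agent.Helper73.DC Finset
open scoped Classical

private lemma ex1 (L l e : ℕ) (h : e ≤ 100 * (L + 1) ^ 2) : e ≤ 14 * (32 * (L + 1) ^ 2 + l) := by
  have h0 : 0 ≤ (L + 1) ^ 2 := Nat.zero_le _
  omega

theorem hWTN (hBND : StBND) : StWTN := by
  intro w x i j
  obtain ⟨h2, -, -, -, -, -, -, -, hQ, -⟩ := hBND w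
  generalize LL (nW w) = L at *
  generalize w.length = l at *
  have P : ∀ e : ℕ, e ≤ 100 * (L + 1) ^ 2 → pw (NN 16 w) 2 e = 2 ^ e := fun e he => h2 e (ex1 L l e he)
  have hwt : wtN (NN 16 w) L x i j = wt L (xt L x) i j := by
    unfold wtN wt we xt dg
    refine Finset.sum_congr rfl fun r hr => ?_
    have hr' : r < L := Finset.mem_range.1 hr
    rw [P (L + 3) (by nlinarith), P L (by nlinarith), P (7 * L + 7) (by nlinarith),
      P ((8 * L + 8) * (L - 1 - r)) ?_, pow_mul 2 (8 * L + 8)]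
    calc (8 * L + 8) * (L - 1 - r) ≤ (8 * L + 8) * (L + 1) := Nat.mul_le_mul_left _ (by omega)
      _ ≤ 100 * (L + 1) ^ 2 := by nlinarith
  have hxq : xqN (NN 16 w) L x + 1 = xq L x := by
    unfold xqN xq
    rw [hQ, P ((7 * L + 7) * L) (by nlinarith), pow_mul]
  have hxx : xxN (NN 16 w) L x = xx L x := by
    unfold xxN xx
    rw [hQ, P ((7 * L + 7) * L + (8 * L ^ 2 + 9 * L + 2)) (by nlinarith), pow_add, pow_mul]
    rfl
  refine ⟨hwt, hxq, hxx, ?_, ?_, ?_⟩
  · unfold evN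
    rw [hwt, hxq, hxx]
  · unfold xq
    omega
  · unfold xq
    have : 0 < Qb L := by unfold Qb; positivity
    exact Nat.mod_lt _ this

end Pool.Agent.Helper33.GS
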